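import Mathlib

/-! Families of graphs with no clique on four vertices and every edge in at most three triangles. -/

set_option autoImplicit false

namespace Pool.Agent.MP_257582_lc.H52K

open Finset SimpleGraph

lemma par {α : Type} [Finite α] (s : Set α) (g : α → α) (hg : ∀ x ∈ s, g x ∈ s) {b : ℕ}
    (hb : ∀ x ∈ s, g^[2 ^ b] x = x) :
    ((s.ncard : ℕ) : ZMod 2) = (({x ∈ s | g x = x}.ncard : ℕ) : ZMod 2) := by
  classical
  have := Fintype.ofFinite α
  let f : Function.End s := fun x => ⟨g x.1, hg _ x.2⟩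
  have h1 : ∀ (j : ℕ) (x : s), ((f ^ j) x).1 = g^[j] x.1 := fun j => by
    induction j with
    | zero => exact fun _ => rfl
    | succ j ih =>
      intro x
      rw [pow_succ, Function.iterate_succ_apply]
      exact ih (f x)
  have h2 : f ^ 2 ^ b = 1 := funext fun x => Subtype.ext ((h1 _ x).trans (hb _ x.2))
  have h3 := Equiv.Perm.card_fixedPoints_modEq (p := 2) h2
  rw [ZMod.natCast_eq_natCast_iff, ← Nat.card_coe_set_eq, ← Nat.card_coe_set_eq]
  rw [← Nat.card_eq_fintype_card, ← Nat.card_eq_fintype_card] at h3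
  have e : Nat.card (Function.fixedPoints f) = Nat.card {x ∈ s | g x = x} :=
    Nat.card_congr
      { toFun := fun x => ⟨x.1.1, x.1.2, congrArg Subtype.val x.2⟩
        invFun := fun x => ⟨⟨x.1, x.2.1⟩, Subtype.ext x.2.2⟩
        left_inv := fun _ => rfl
        right_inv := fun _ => rfl }
  rw [← e]
  exact h3

/-- a decreasing invariant family of such graphs -/
structure Fam (Φ : ∀ X : Type, SimpleGraph X → Prop) : Prop where
  le : ∀ {X Y : Type} {G : SimpleGraph X} {H : SimpleGraph Y} (e : X ≃ Y),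
    (∀ x y, G.Adj x y → H.Adj (e x) (e y)) → Φ Y H → Φ X G
  clq : ∀ {X : Type} {G : SimpleGraph X} (c : Fin 4 → X), Φ X G →
    (∀ i j, i ≠ j → G.Adj (c i) (c j)) → False
  book : ∀ {X : Type} {G : SimpleGraph X} {a b : X} (c : Fin 4 → X), Φ X G → G.Adj a b →
    Function.Injective c → (∀ i, G.Adj a (c i) ∧ G.Adj b (c i)) → False

/-- size of a node -/
noncomputable def sz {X T : Type} (a : X → T) (t : T) : ℕ := (a ⁻¹' {t}).ncard

/-- allowed sizes of the nodes -/
def Ok (o : ℕ) {X T : Type} (a : X → T) : Prop :=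
  (∀ t, sz a t = 4 ∨ sz a t = 8 ∨ sz a t = o ∨ sz a t = 5) ∧
    ∀ t t', Odd (sz a t) → Odd (sz a t') → t = t'

/-- the number of blow-ups in the family is even -/
def Test (o : ℕ) (Φ : ∀ X : Type, SimpleGraph X → Prop) : Prop :=
  ∀ (X T : Type) [Finite X] [Finite T] (a : X → T), Ok o a →
    (({E : SimpleGraph T | Φ X (E.comap a)}.ncard : ℕ) : ZMod 2) = 0

/-- disjoint union of two graphs -/
def ds {L X : Type} (K : SimpleGraph L) (G : SimpleGraph X) : SimpleGraph (L ⊕ X) where
  Adj x y := match x, y with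
    | .inl u, .inl v => K.Adj u v
    | .inr u, .inr v => G.Adj u v
    | _, _ => False
  symm := ⟨fun x y h => by
    rcases x with x | x <;> rcases y with y | y
    · exact K.adj_symm h
    · exact h
    · exact h
    · exact G.adj_symm h⟩
  loopless := ⟨fun x h => by
    rcases x with x | x
    · exact K.irrefl h
    · exact G.irrefl h⟩

/-- the family restricted to a fixed component -/
def rest (Φ : ∀ X : Type, SimpleGraph X → Prop) {L : Type} (K : SimpleGraph L) :
    ∀ X : Type, SimpleGraph X → Prop := fun X G => Φ (L ⊕ X) (ds K G)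

lemma Fam.rest {Φ : ∀ X : Type, SimpleGraph X → Prop} (h : Fam Φ) {L : Type} (K : SimpleGraph L) :
    Fam (rest Φ K) where
  le := fun e he => h.le (Equiv.sumCongr (Equiv.refl L) e) fun x y hxy => by
    rcases x with x | x <;> rcases y with y | y
    · exact hxy
    · exact hxy.elim
    · exact hxy.elim
    · exact he x y hxy
  clq := fun c hG h1 => h.clq (fun i => Sum.inr (c i)) hG h1
  book := fun {_ _ a b} c hG h1 h2 h3 => h.book (a := Sum.inr a) (b := Sum.inr b)
    (fun i => Sum.inr (c i)) hG h1 (Sum.inr_injective.comp h2) h3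

lemma sz_inl {X X' T T' : Type} (a : X → T) (a' : X' → T') (t : T) :
    sz (Sum.map a a') (.inl t) = sz a t := by
  rw [sz, sz, show Sum.map a a' ⁻¹' {.inl t} = Sum.inl '' (a ⁻¹' {t}) by ext (x | x) <;> simp,
    Set.ncard_image_of_injective _ Sum.inl_injective]

lemma sz_inr {X X' T T' : Type} (a : X → T) (a' : X' → T') (t : T') :
    sz (Sum.map a a') (.inr t) = sz a' t := by
  rw [sz, sz, show Sum.map a a' ⁻¹' {.inr t} = Sum.inr '' (a' ⁻¹' {t}) by ext (x | x) <;> simp,
    Set.ncard_image_of_injective _ Sum.inr_injective]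

lemma sz_fst {T : Type} (t : T) : sz (Prod.fst : T × Fin 4 → T) t = 4 := by
  rw [sz, show (Prod.fst : T × Fin 4 → T) ⁻¹' {t} = Prod.mk t '' Set.univ by ext ⟨a, b⟩; simp [eq_comm],
    Set.ncard_image_of_injective _ (Prod.mk_right_injective t), Set.ncard_univ]
  simp

lemma sz_unit {X : Type} : sz (fun _ : X => ()) () = Nat.card X := by
  rw [sz, ← Set.ncard_univ]
  congr 1
  ext x
  simp

lemma Ok.surj {o : ℕ} (ho : 0 < o) {X T : Type} {a : X → T} (h : Ok o a) (t : T) : ∃ x, a x = t := by
  have h1 : (a ⁻¹' {t}).ncard ≠ 0 := by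
    have := h.1 t
    rw [sz] at this
    omega
  exact Set.nonempty_of_ncard_ne_zero h1

lemma Ok.sum {o : ℕ} {X X' T T' : Type} {a : X → T} {a' : X' → T'} (h : ∀ t, sz a t = 4 ∨ sz a t = 8)
    (h' : Ok o a') : Ok o (Sum.map a a') := by
  have k : ∀ t, ¬ Odd (sz (Sum.map a a') (.inl t)) := fun t => by
    rw [sz_inl]
    rcases h t with e | e <;> rw [e] <;> decide
  refine ⟨?_, ?_⟩
  · rintro (t | t)
    · rw [sz_inl]
      exact (h t).imp_right Or.inl
    · rw [sz_inr]
      exact h'.1 t
  · rintro (t | t) (t' | t') h1 h2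
    · exact absurd h1 (k t)
    · exact absurd h1 (k t)
    · exact absurd h2 (k t')
    · rw [sz_inr] at h1 h2
      rw [h'.2 t t' h1 h2]

/-- the complete bipartite graph with four vertices on each side -/
def K44 : SimpleGraph (Bool × Fin 4) := (⊤ : SimpleGraph Bool).comap Prod.fst

theorem Test.rest {o : ℕ} (ho : 0 < o) {Φ : ∀ X : Type, SimpleGraph X → Prop} (hΦ : Fam Φ)
    (h : Test o Φ) : Test o (rest Φ K44) := by
  intro X T _ _ a ha
  have h1 := h _ _ (Sum.map (Prod.fst : Bool × Fin 4 → Bool) a) (Ok.sum (fun t => Or.inl (sz_fst t)) ha)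
  have h2 := h _ _ (Sum.map (fun _ : Bool × Fin 4 => ()) a)
    (Ok.sum (fun _ => Or.inr (sz_unit.trans (by simp))) ha)
  let σ : Bool ⊕ T → Bool ⊕ T := Sum.map not id
  have σσ : ∀ x, σ (σ x) = x := by rintro (x | x) <;> simp [σ]
  rw [par {E : SimpleGraph (Bool ⊕ T) | Φ _ (E.comap (Sum.map (Prod.fst : Bool × Fin 4 → Bool) a))}
    (fun E => E.comap σ) (b := 1) (fun E hE => hΦ.le
      (Equiv.sumCongr (Equiv.prodCongr ⟨not, not, Bool.not_not, Bool.not_not⟩ (Equiv.refl _))
        (Equiv.refl X)) (fun x y hxy => by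
        rcases x with x | x <;> rcases y with y | y <;> exact hxy) hE)
      (fun E _ => by
        ext x y
        change E.Adj (σ (σ x)) (σ (σ y)) ↔ _
        rw [σσ, σσ])] at h1
  have fx : ∀ E : SimpleGraph (Bool ⊕ T), E.comap σ = E → ∀ b b' t,
      E.Adj (.inl b) (.inr t) → E.Adj (.inl b') (.inr t) := fun E hE b b' t h => by
    have k : ∀ b, E.Adj (.inl b) (.inr t) → E.Adj (.inl (!b)) (.inr t) := fun b h => by
      rw [← hE] at h
      exact h
    cases b <;> cases b' <;> first | exact h | exact k _ h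
  have e1 : {E : SimpleGraph (Unit ⊕ T) | Φ _ (E.comap (Sum.map (fun _ : Bool × Fin 4 => ()) a))}.ncard =
      {E : SimpleGraph (Bool ⊕ T) | (Φ _ (E.comap (Sum.map (Prod.fst : Bool × Fin 4 → Bool) a)) ∧
        E.comap σ = E) ∧ ¬ E.Adj (.inl true) (.inl false)}.ncard := by
    refine Set.ncard_congr (fun E _ => E.comap (Sum.map (fun _ => ()) id)) (fun E hE =>
      ⟨⟨hΦ.le (Equiv.refl _) (fun x y hxy => by
        rcases x with x | x <;> rcases y with y | y <;> exact hxy) hE, ?_⟩,
        fun h => E.irrefl (v := .inl ()) h⟩) (fun E E' _ _ e => ?_) fun E hE => ?_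
    · ext (x | x) (y | y) <;> rfl
    · have k : ∀ x y, E.Adj (Sum.map (fun _ : Bool => ()) id x) (Sum.map (fun _ : Bool => ()) id y) ↔
          E'.Adj (Sum.map (fun _ : Bool => ()) id x) (Sum.map (fun _ : Bool => ()) id y) :=
        fun x y => iff_of_eq (congrArg (fun G : SimpleGraph (Bool ⊕ T) => G.Adj x y) e)
      ext (x | x) (y | y)
      · exact k (.inl true) (.inl true)
      · exact k (.inl true) (.inr y)
      · exact k (.inr x) (.inl true)
      · exact k (.inr x) (.inr y)
    · have e : (E.comap (Sum.map (fun _ : Unit => true) id)).comap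
          (Sum.map (fun _ : Bool => ()) id) = E := by
        ext (x | x) (y | y)
        · refine iff_of_false (fun h => E.irrefl (v := .inl true) h) fun h => ?_
          cases x <;> cases y <;> first | exact h.ne rfl | exact hE.2 h | exact hE.2 h.symm
        · exact ⟨fx E hE.1.2 _ _ _, fx E hE.1.2 _ _ _⟩
        · exact ⟨fun h => (fx E hE.1.2 _ _ _ h.symm).symm, fun h => (fx E hE.1.2 _ _ _ h.symm).symm⟩
        · rfl
      refine ⟨_, hΦ.le (Equiv.refl _) (fun x y hxy => ?_) hE.1.1, e⟩
      rw [← e]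
      rcases x with x | x <;> rcases y with y | y <;> exact hxy
  have e2 : {E : SimpleGraph T | H52K.rest Φ K44 X (E.comap a)}.ncard =
      {E : SimpleGraph (Bool ⊕ T) | (Φ _ (E.comap (Sum.map (Prod.fst : Bool × Fin 4 → Bool) a)) ∧
        E.comap σ = E) ∧ E.Adj (.inl true) (.inl false)}.ncard := by
    refine Set.ncard_congr (fun E _ => ds (⊤ : SimpleGraph Bool) E) (fun E hE =>
      ⟨⟨hΦ.le (Equiv.refl _) (fun x y hxy => by
        rcases x with x | x <;> rcases y with y | y <;> exact hxy) hE, ?_⟩,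
        (by decide : true ≠ false)⟩) (fun E E' _ _ e => ?_) fun E hE => ?_
    · ext (x | x) (y | y)
      · exact Bool.not_inj_iff.ne
      · rfl
      · rfl
      · rfl
    · ext x y
      exact iff_of_eq (congrArg (fun G : SimpleGraph (Bool ⊕ T) => G.Adj (.inr x) (.inr y)) e)
    · have k : ∀ b t, ¬ E.Adj (.inl b) (.inr t) := fun b t h => by
        obtain ⟨x, rfl⟩ := ha.surj ho t
        exact hΦ.book (a := Sum.inl (true, 0)) (b := Sum.inr x) (fun i => Sum.inl (false, i)) hE.1.1
          (fx E hE.1.2 _ _ _ h) (Sum.inl_injective.comp (Prod.mk_right_injective false))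
          fun _ => ⟨hE.2, (fx E hE.1.2 _ _ _ h).symm⟩
      have e : ds (⊤ : SimpleGraph Bool) (E.comap Sum.inr) = E := by
        ext (x | x) (y | y)
        · refine ⟨fun h => ?_, fun h e => h.ne (congrArg _ e)⟩
          cases x <;> cases y <;> first | exact absurd rfl h | exact hE.2 | exact hE.2.symm
        · exact iff_of_false (fun h => h) (k x y)
        · exact iff_of_false (fun h => h) fun h => k y x h.symm
        · rfl
      refine ⟨_, hΦ.le (Equiv.refl _) (fun x y hxy => ?_) hE.1.1, e⟩
      rw [← e]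
      rcases x with x | x <;> rcases y with y | y <;> exact hxy
  rw [e1] at h2
  rw [e2]
  refine (zero_add _).symm.trans ((congrArg (· + _) h2.symm).trans (Eq.trans ?_ h1))
  rw [← Nat.cast_add, ← Set.ncard_union_eq (Set.disjoint_left.2 fun E h h' => h.2 h'.2)]
  congr 2
  ext E
  exact ⟨fun h => h.elim (fun a => a.1) fun a => a.1,
    fun h => (em (E.Adj (.inl true) (.inl false))).symm.imp (fun a => ⟨h, a⟩) fun a => ⟨h, a⟩⟩

theorem descent {o : ℕ} (ho : o % 8 = 1) (m : ℕ) : m % 4 ≤ 1 → (m % 8 = 1 → o ≤ m) →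
    ∀ Φ : ∀ X : Type, SimpleGraph X → Prop, Fam Φ → Test o Φ → ¬ Φ (Fin m) ⊥ := by
  induction m using Nat.strong_induction_on with
  | _ m ih =>
    intro hm hm' Φ hΦ hT h0
    have key : ∀ (X T : Type) [Finite X] [Finite T] (a : X → T), Nat.card X = m → Ok o a →
        (∀ t t', t ≠ t' → 4 ≤ sz a t ∧ m ≠ o) → False := fun X T _ _ a hX ha h4 => by
      have h1 := hT X T a ha
      have e : {E : SimpleGraph T | Φ X (E.comap a)} = {⊥} := by
        ext E
        refine ⟨fun hE => by_contra fun h => ?_, fun hE => ?_⟩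
        · obtain ⟨t, t', ht⟩ := ne_bot_iff_exists_adj.1 h
          have em : ∀ t, 4 ≤ sz a t → ∃ j : Fin 4 → X, Function.Injective j ∧ ∀ i, a (j i) = t :=
            fun t h => by
              have := Fintype.ofFinite (a ⁻¹' {t})
              obtain ⟨j⟩ := Function.Embedding.nonempty_of_card_le (α := Fin 4) (β := a ⁻¹' {t})
                (by rw [Fintype.card_fin, ← Nat.card_eq_fintype_card]; exact h)
              exact ⟨fun i => j i, Subtype.val_injective.comp j.injective, fun i => (j i).2⟩
          obtain ⟨j, j1, j2⟩ := em t (h4 t t' ht.ne).1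
          obtain ⟨j', j3, j4⟩ := em t' (h4 t' t ht.ne').1
          have hi : Function.Injective fun v : Bool × Fin 4 => cond v.1 (j v.2) (j' v.2) := by
            rintro ⟨_ | _, i⟩ ⟨_ | _, i'⟩ e
            · exact congrArg _ (j3 e)
            · exact absurd ((j2 i').symm.trans ((congrArg a e).symm.trans (j4 i))) ht.ne
            · exact absurd ((j2 i).symm.trans ((congrArg a e).trans (j4 i'))) ht.ne
            · exact congrArg _ (j1 e)
          have h8 : 8 ≤ m := by simpa [hX] using Nat.card_le_card_of_injective _ hi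
          obtain ⟨e0⟩ : Nonempty ((Bool × Fin 4) ⊕ Fin (m - 8) ≃ X) :=
            Finite.card_eq.1 (by simp [hX]; omega)
          obtain ⟨ρ, hρ⟩ := Equiv.Perm.exists_extending_pair _ _
            (e0.injective.comp Sum.inl_injective) hi
          have h9 := (h4 t t' ht.ne).2
          refine ih (m - 8) (by omega) (by omega) (by omega) _ (hΦ.rest K44) (hT.rest (by omega) hΦ)
            (hΦ.le (e0.trans ρ) (fun x y hxy => ?_) hE)
          rcases x with x | x <;> rcases y with y | y
          · change E.Adj (a (ρ ((e0 ∘ Sum.inl) x))) (a (ρ ((e0 ∘ Sum.inl) y)))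
            rw [hρ, hρ]
            rcases x with ⟨_ | _, i⟩ <;> rcases y with ⟨_ | _, i'⟩
            · exact absurd rfl hxy
            · exact (j4 i).symm ▸ (j2 i').symm ▸ ht.symm
            · exact (j2 i).symm ▸ (j4 i').symm ▸ ht
            · exact absurd rfl hxy
          · exact hxy.elim
          · exact hxy.elim
          · exact hxy.elim
        · rw [Set.mem_singleton_iff.1 hE]
          obtain ⟨e0⟩ : Nonempty (X ≃ Fin m) := Finite.card_eq.1 (by simp [hX])
          exact hΦ.le e0 (fun _ _ h => h.elim) h0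
      rw [e, Set.ncard_singleton, Nat.cast_one] at h1
      exact one_ne_zero h1
    have un : ∀ r, r = o ∨ r = 5 → Ok o fun _ : Fin r => () := fun r hr =>
      ⟨fun _ => Or.inr (Or.inr (by rw [sz_unit]; simpa using hr)), fun _ _ _ _ => rfl⟩
    by_cases h1 : m % 4 = 0
    · exact key (Fin (m / 4) × Fin 4) _ Prod.fst (by simp; omega)
        ⟨fun t => Or.inl (sz_fst t), fun t _ h => absurd h (by rw [sz_fst]; decide)⟩
        fun t _ _ => ⟨(sz_fst t).ge, by omega⟩
    · by_cases h2 : m = o
      · exact key (Fin o) Unit _ (by simp [h2]) (un o (Or.inl rfl)) fun _ _ h => absurd rfl h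
      · refine key ((Fin (m / 4 - 1) × Fin 4) ⊕ Fin 5) _ (Sum.map Prod.fst fun _ => ())
          (by simp; omega) (Ok.sum (fun t => Or.inl (sz_fst t)) (un 5 (Or.inr rfl))) ?_
        rintro (t | t) _ _
        · rw [sz_inl, sz_fst]
          exact ⟨le_rfl, h2⟩
        · rw [sz_inr, sz_unit]
          exact ⟨by simp, h2⟩

end Pool.Agent.MP_257582_lc.H52K
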