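import Pool.Agent.MP_257582_lc.E99.Par
import Pool.Agent.MP_257582_lc.H52K.A

/-! The theorem of Oliver modulo two for the graphs that contain a fixed invariant graph. -/

set_option autoImplicit false

namespace Pool.Agent.MP_257582_lc.H52K

open Finset SimpleGraph
open Pool.Agent.MP_257582_lc.H99 (aut)

/-- the restrictions with the edges of `B` present and more than `c` free pairs are acyclic -/
def Ac {n : ℕ} (f : SimpleGraph (Fin n) → Prop) (B : Finset (Sym2 (Fin n))) (c : ℕ) : Prop :=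
  ∀ (V : Type) [Fintype V] [DecidableEq V] (j : V ↪ Sym2 (Fin n)) (r : V → ℕ),
    Function.Injective r → c < Fintype.card V →
    Acyc (ZMod 2) r {A | f (fromEdgeSet ((B ∪ A.map j : Finset (Sym2 (Fin n))) : Set (Sym2 (Fin n))))}

lemma aut_iff {Y : Type} [Finite Y] {G : SimpleGraph Y} {σ : Equiv.Perm Y} (h : σ ∈ aut G) (x y : Y) :
    G.Adj (σ x) (σ y) ↔ G.Adj x y := by
  refine ⟨fun hxy => ?_, h x y⟩
  have := pow_mem h (orderOf σ - 1) _ _ hxy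
  rwa [← Equiv.Perm.mul_apply, ← Equiv.Perm.mul_apply, ← pow_succ,
    Nat.sub_add_cancel (orderOf_pos σ), pow_orderOf_eq_one] at this

theorem evenZ {n d : ℕ} {f : SimpleGraph (Fin n) → Prop} (hf : Setup n d f) {Y : Type} [Finite Y]
    (e : Y ≃ Fin n) (Z : SimpleGraph Y) {B : Finset (Sym2 (Fin n))} {c : ℕ} (hA : Ac f B c)
    (hB : ∀ x y, x ≠ y → (s(e x, e y) ∈ B ↔ Z.Adj x y))
    (hc : c < Nat.card {v : Sym2 Y // ¬ v.IsDiag ∧ v ∉ Z.edgeSet}) {κ : Type} [Fintype κ]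
    {φ : (κ → ZMod 2) → Equiv.Perm Y} (h0 : φ 0 = 1) (hadd : ∀ a b, φ (a + b) = φ a * φ b)
    {g τ : Equiv.Perm Y} (hn : ∀ a, ∃ b, g * φ a = φ b * g) (hm : ∀ a, τ * φ a = φ a * τ) {U b : ℕ}
    (hU : τ * g = g ^ U * τ) (hτ : τ ^ 2 ^ b = 1) (z1 : ∀ a, φ a ∈ aut Z) (z2 : g ∈ aut Z)
    (z3 : τ ∈ aut Z) :
    (({G : SimpleGraph Y | ((∀ a, φ a ∈ aut G) ∧ g ∈ aut G ∧ τ ∈ aut G) ∧ Z ≤ G ∧ InG f G}.ncard : ℕ) :
      ZMod 2) = 0 := by
  classical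
  have := Fintype.ofFinite Y
  have : Fact (Nat.Prime 2) := ⟨Nat.prime_two⟩
  let a : Equiv.Perm Y →* Equiv.Perm (Sym2 Y) :=
    { toFun := fun σ => ⟨Sym2.map σ, Sym2.map σ.symm, fun v => by simp [Sym2.map_map],
        fun v => by simp [Sym2.map_map]⟩
      map_one' := Equiv.ext fun v => by simp
      map_mul' := fun σ τ => Equiv.ext fun v => by simp [Sym2.map_map] }
  have aa : ∀ σ x y, a σ s(x, y) = s(σ x, σ y) := fun _ _ _ => rfl
  let K : Set (Finset (Sym2 Y)) :=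
    {A | (∀ x y, s(x, y) ∈ A → x ≠ y ∧ ¬ Z.Adj x y) ∧ InG f (Z ⊔ fromEdgeSet A)}
  have hK : ∀ σ ∈ aut Z, ∀ A : Finset _, A.map (a σ).toEmbedding ∈ K ↔ A ∈ K := fun σ hσ A => by
    have k : ∀ x y, s(σ x, σ y) ∈ A.map (a σ).toEmbedding ↔ s(x, y) ∈ A := fun x y =>
      mem_map' (a σ).toEmbedding (a := s(x, y))
    have k2 : ∀ x y, (Z ⊔ fromEdgeSet (A.map (a σ).toEmbedding)).Adj (σ x) (σ y) ↔
        (Z ⊔ fromEdgeSet A).Adj x y := fun x y => by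
      simp only [sup_adj, fromEdgeSet_adj, mem_coe, k, aut_iff hσ, σ.injective.ne_iff]
    refine and_congr ⟨fun h x y hxy => ?_, fun h x y hxy => ?_⟩
      ⟨inG_of_le hf σ fun x y => (k2 x y).2, inG_of_le hf σ.symm fun x y hxy => (k2 _ _).1 ?_⟩
    · have := h _ _ ((k x y).2 hxy)
      rwa [aut_iff hσ, σ.injective.ne_iff] at this
    · obtain ⟨x, rfl⟩ := σ.surjective x
      obtain ⟨y, rfl⟩ := σ.surjective y
      rw [aut_iff hσ, σ.injective.ne_iff]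
      exact h _ _ ((k x y).1 hxy)
    · rwa [Equiv.apply_symm_apply, Equiv.apply_symm_apply]
  obtain ⟨r, hr⟩ := exists_rank (Sym2 Y)
  have hA' : Acyc (ZMod 2) r K := by
    let m : Sym2 Y ↪ Sym2 (Fin n) := ⟨Sym2.map e, Sym2.map.injective e.injective⟩
    let i : {v : Sym2 Y // ¬ v.IsDiag ∧ v ∉ Z.edgeSet} ↪ Sym2 Y := Function.Embedding.subtype _
    have hr' := hr.comp i.injective
    have h1 := (acyc_map_iff hr' hr i _).1
      (hA _ (i.trans m) _ hr' (by rwa [← Nat.card_eq_fintype_card]))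
    have k : ∀ σ : Finset {v : Sym2 Y // ¬ v.IsDiag ∧ v ∉ Z.edgeSet},
        f (fromEdgeSet ((B ∪ σ.map (i.trans m) : Finset (Sym2 (Fin n))) : Set (Sym2 (Fin n)))) ↔
          InG f (Z ⊔ fromEdgeSet (σ.map i)) := fun σ => by
      rw [inG_iff hf _ e, ← Finset.map_map]
      refine iff_of_eq (congrArg f ?_)
      ext u v
      obtain ⟨x, rfl⟩ := e.surjective u
      obtain ⟨y, rfl⟩ := e.surjective v
      refine Iff.trans ?_ (map_adj_apply (G := Z ⊔ fromEdgeSet (σ.map i)) (f := e.toEmbedding)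
        (a := x) (b := y)).symm
      have h2 : s(e x, e y) ∈ (σ.map i).map m ↔ s(x, y) ∈ σ.map i := mem_map' m (a := s(x, y))
      rw [fromEdgeSet_adj, sup_adj, fromEdgeSet_adj, mem_coe, mem_coe, mem_union, h2,
        e.injective.ne_iff]
      exact ⟨fun h => h.1.imp (hB x y h.2).1 fun h' => ⟨h', h.2⟩, fun h => h.elim
        (fun h => ⟨Or.inl ((hB x y h.ne).2 h), h.ne⟩) fun h => ⟨Or.inr h.1, h.2⟩⟩
    refine (congrArg (Acyc (ZMod 2) r) ?_).mp h1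
    ext A
    constructor
    · rintro ⟨σ, h2, rfl⟩
      refine ⟨fun x y hxy => ?_, (k σ).1 h2⟩
      obtain ⟨v, _, hv⟩ := mem_map.1 hxy
      have h3 := v.2
      rw [show v.1 = s(x, y) from hv] at h3
      exact ⟨fun h => h3.1 (Sym2.mk_isDiag_iff.2 h), h3.2⟩
    · rintro ⟨h2, h3⟩
      have h4 : (A.subtype fun v => ¬ v.IsDiag ∧ v ∉ Z.edgeSet).map i = A :=
        subtype_map_of_mem fun v => Sym2.ind (fun x y hv =>
          ⟨fun h => (h2 x y hv).1 (Sym2.mk_isDiag_iff.1 h), (h2 x y hv).2⟩) v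
      exact ⟨_, (k _).2 (h4.symm ▸ h3), h4⟩
  have h1 := E99.face_even (K := K) (φ := fun c => a (φ c)) (g := a g) (by rw [h0, a.map_one])
    (fun c c' => by rw [hadd, a.map_mul])
    (fun A A' h hA => ⟨fun x y hxy => hA.1 x y (h hxy), inG_of_le hf (Equiv.refl _)
      (fun x y hxy => sup_le_sup_left (fromEdgeSet_mono (coe_subset.2 h)) Z hxy) hA.2⟩)
    (fun c => hK _ (z1 c)) hr hA' (hK _ z2) (fun c => (hn c).imp fun c' h => by
      rw [← a.map_mul, ← a.map_mul, h])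
  have mem : ∀ σ ∈ K, ∀ x y, s(x, y) ∈ σ ↔ (Z ⊔ fromEdgeSet σ).Adj x y ∧ ¬ Z.Adj x y :=
    fun σ hσ x y => ⟨fun h => ⟨Or.inr ⟨h, (hσ.1 x y h).1⟩, (hσ.1 x y h).2⟩,
      fun h => (h.1.resolve_left h.2).1⟩
  have haut : ∀ σ ∈ K, ∀ π ∈ aut Z, (∀ v ∈ σ, a π v ∈ σ) ↔ π ∈ aut (Z ⊔ fromEdgeSet σ) := by
    intro σ hσ π hπ
    refine ⟨fun h x y hxy => hxy.imp (hπ x y) fun h' => ⟨h _ h'.1, π.injective.ne h'.2⟩,
      fun h v => Sym2.ind (fun x y hv => ?_) v⟩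
    rw [aa, mem σ hσ, aut_iff hπ]
    exact ⟨h _ _ ((mem σ hσ x y).1 hv).1, ((mem σ hσ x y).1 hv).2⟩
  have h2 : {σ | σ ∈ K ∧ ∀ v ∈ σ, (∀ c, a (φ c) v ∈ σ) ∧ a g v ∈ σ}.ncard =
      {G : SimpleGraph Y | ((∀ c, φ c ∈ aut G) ∧ g ∈ aut G) ∧ Z ≤ G ∧ InG f G}.ncard := by
    refine Set.ncard_congr (fun σ _ => Z ⊔ fromEdgeSet σ) (fun σ hσ =>
      ⟨⟨fun c => (haut σ hσ.1 _ (z1 c)).1 fun v hv => (hσ.2 v hv).1 c,
        (haut σ hσ.1 _ z2).1 fun v hv => (hσ.2 v hv).2⟩, le_sup_left, hσ.1.2⟩)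
      (fun σ σ' h h' e => ?_) fun G hG => ?_
    · have e' : Z ⊔ fromEdgeSet σ = Z ⊔ fromEdgeSet σ' := e
      ext v
      induction v using Sym2.ind with
      | h x y => rw [mem σ h.1, mem σ' h'.1, e']
    · have e : Z ⊔ fromEdgeSet (univ.filter (· ∈ (G \ Z).edgeSet) : Finset (Sym2 Y)) = G := by
        rw [coe_filter_univ, Set.ofPred_mem_eq, fromEdgeSet_edgeSet, sup_sdiff_cancel_right hG.2.1]
      have k : (univ.filter (· ∈ (G \ Z).edgeSet) : Finset (Sym2 Y)) ∈ K :=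
        ⟨fun x y h => ⟨(mem_filter.1 h).2.1.ne, (mem_filter.1 h).2.2⟩, e.symm ▸ hG.2.2⟩
      exact ⟨_, ⟨k, fun v hv => ⟨fun c => (haut _ k _ (z1 c)).2 (e.symm ▸ hG.1.1 c) v hv,
        (haut _ k _ z2).2 (e.symm ▸ hG.1.2) v hv⟩⟩, e⟩
  have it : ∀ (j : ℕ) (G : SimpleGraph Y),
      (fun G : SimpleGraph Y => G.comap τ)^[j] G = G.comap (τ ^ j : Equiv.Perm Y) := fun j => by
    induction j with
    | zero => exact fun _ => rfl
    | succ j ih =>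
      intro G
      rw [Function.iterate_succ_apply, ih, pow_succ']
      rfl
  rw [h2, par {G : SimpleGraph Y | ((∀ c, φ c ∈ aut G) ∧ g ∈ aut G) ∧ Z ≤ G ∧ InG f G}
    (fun G : SimpleGraph Y => G.comap τ) (b := b) (fun G hG => ⟨⟨fun c x y h => by
      have := hG.1.1 c _ _ h
      rwa [← Equiv.Perm.mul_apply, ← Equiv.Perm.mul_apply, ← hm] at this, fun x y h => by
      have := pow_mem hG.1.2 U _ _ h
      rwa [← Equiv.Perm.mul_apply, ← Equiv.Perm.mul_apply, ← hU] at this⟩,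
      fun x y h => hG.2.1 (z3 x y h), inG_of_le hf τ (fun _ _ h => h) hG.2.2⟩)
    (fun G _ => by rw [it, hτ]; rfl)] at h1
  rw [← h1]
  congr 2
  ext G
  refine ⟨fun h => ⟨⟨⟨h.1.1, h.1.2.1⟩, h.2⟩, ?_⟩, fun h => ⟨⟨h.1.1.1, h.1.1.2, fun x y hxy => ?_⟩,
    h.1.2⟩⟩
  · ext x y
    exact aut_iff h.1.2.2 x y
  · have e : G.comap τ = G := h.2
    rw [← e] at hxy
    exact hxy

end Pool.Agent.MP_257582_lc.H52K
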