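import Pool.Agent.MP_257582_lc.H52K.B

/-! The permutation group on blocks of sizes 4, 8, 1, 5, 17 and the parity test. -/

set_option autoImplicit false

namespace Pool.Agent.MP_257582_lc.H52K

open Finset SimpleGraph
open Pool.Agent.MP_257582_lc.H99 (aut)

lemma gal (m : ℕ) (hm : m = 2 ∨ m = 3) : ∃ w : (GaloisField 2 m)ˣ, w ^ 21 = 1 ∧
    ∀ x y : GaloisField 2 m, x ≠ 0 → y ≠ 0 → ∃ j : ℕ, (w ^ j : (GaloisField 2 m)ˣ) * x = y := by
  have hc := GaloisField.card 2 m (by omega)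
  obtain ⟨w, hw⟩ := IsCyclic.exists_monoid_generator (α := (GaloisField 2 m)ˣ)
  refine ⟨w, ?_, fun x y hx hy => ?_⟩
  · have h1 : w ^ Nat.card (GaloisField 2 m)ˣ = 1 := pow_card_eq_one'
    rw [Nat.card_units, hc] at h1
    rcases hm with rfl | rfl
    · rw [show 21 = (2 ^ 2 - 1) * 7 from rfl, pow_mul, h1, one_pow]
    · rw [show 21 = (2 ^ 3 - 1) * 3 from rfl, pow_mul, h1, one_pow]
  · obtain ⟨j, hj⟩ := hw (Units.mk0 _ (div_ne_zero hy hx))
    exact ⟨j, by rw [show w ^ j = _ from hj, Units.val_mk0, div_mul_cancel₀ _ hx]⟩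

lemma blk (k : ℕ) (hk : k = 4 ∨ k = 8 ∨ k = 1 ∨ k = 5 ∨ k = 17) :
    ∃ (B : Type) (_ : CommRing B) (w u : Bˣ), Finite B ∧ Nat.card B = k ∧ u ^ 2 ^ 4 = 1 ∧
      (¬ Odd k → (2 : B) = 0 ∧ u = 1 ∧ w ^ 21 = 1 ∧
        ∀ x y : B, x ≠ 0 → y ≠ 0 → ∃ j : ℕ, (w ^ j : Bˣ) * x = y) ∧
      (Odd k → (∀ c : B, ∃ j : ℕ, (j : B) = c) ∧ ((547 : ℕ) : B) = u ∧
        ∀ x y : B, x ≠ 0 → y ≠ 0 → ∃ j : Fin 16, (u : B) ^ j.1 * x = y) := by
  rcases hk with rfl | rfl | rfl | rfl | rfl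
  · obtain ⟨w, h⟩ := gal 2 (Or.inl rfl)
    exact ⟨GaloisField 2 2, inferInstance, w, 1, inferInstance, GaloisField.card 2 2 (by norm_num),
      one_pow _, fun _ => ⟨CharTwo.two_eq_zero, rfl, h⟩, fun h => absurd h (by decide)⟩
  · obtain ⟨w, h⟩ := gal 3 (Or.inr rfl)
    exact ⟨GaloisField 2 3, inferInstance, w, 1, inferInstance, GaloisField.card 2 3 (by norm_num),
      one_pow _, fun _ => ⟨CharTwo.two_eq_zero, rfl, h⟩, fun h => absurd h (by decide)⟩
  · exact ⟨ZMod 1, inferInstance, 1, 1, inferInstance, Nat.card_zmod 1, one_pow _,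
      fun h => absurd odd_one h, fun _ => ⟨fun c => ⟨c.val, ZMod.natCast_zmod_val c⟩, by decide,
        by decide⟩⟩
  · exact ⟨ZMod 5, inferInstance, 1, ⟨2, 3, by decide, by decide⟩, inferInstance, Nat.card_zmod 5,
      Units.ext (by decide), fun h => absurd (by decide) h,
      fun _ => ⟨fun c => ⟨c.val, ZMod.natCast_zmod_val c⟩, by decide, by decide⟩⟩
  · exact ⟨ZMod 17, inferInstance, 1, ⟨3, 6, by decide, by decide⟩, inferInstance, Nat.card_zmod 17,
      Units.ext (by decide), fun h => absurd (by decide) h,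
      fun _ => ⟨fun c => ⟨c.val, ZMod.natCast_zmod_val c⟩, by decide, by decide⟩⟩

variable {L T : Type} {B : T → Type}

/-- permutations that preserve the blocks -/
def pm (l : Equiv.Perm L) (e : ∀ t, Equiv.Perm (B t)) : Equiv.Perm (L ⊕ Σ t, B t) :=
  Equiv.sumCongr l (Equiv.sigmaCongrRight e)

lemma pm_mul (l l' : Equiv.Perm L) (e e' : ∀ t, Equiv.Perm (B t)) :
    pm l e * pm l' e' = pm (l * l') fun t => e t * e' t :=
  Equiv.ext fun x => by rcases x with x | ⟨t, x⟩ <;> rfl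

lemma pm_one : pm (1 : Equiv.Perm L) (fun t => (1 : Equiv.Perm (B t))) = 1 :=
  Equiv.ext fun x => by rcases x with x | ⟨t, x⟩ <;> rfl

lemma pm_pow (l : Equiv.Perm L) (e : ∀ t, Equiv.Perm (B t)) (j : ℕ) :
    pm l e ^ j = pm (l ^ j) fun t => e t ^ j := by
  induction j with
  | zero => exact pm_one.symm
  | succ j ih => simp only [pow_succ, ih, pm_mul]

lemma pm_aut (l : Equiv.Perm L) (e : ∀ t, Equiv.Perm (B t)) (E : SimpleGraph T) :
    pm l e ∈ aut (ds (⊤ : SimpleGraph L) (E.comap (Sigma.fst : (Σ t, B t) → T))) := by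
  rintro (x | ⟨t, x⟩) (y | ⟨t', y⟩) h
  · exact l.injective.ne h
  · exact h
  · exact h
  · exact h

lemma val_add {K : Type} [CommRing K] (h : (2 : K) = 0) (z z' : ZMod 2) :
    (((z + z').val : ℕ) : K) = (z.val : ℕ) + (z'.val : ℕ) := by
  have h1 : z.val + z'.val = (z + z').val + 2 * ((z.val + z'.val) / 2) := by
    rw [ZMod.val_add, Nat.mod_add_div]
  have h2 := congrArg (Nat.cast : ℕ → K) h1
  push_cast at h2
  rw [h2, h, zero_mul, add_zero]

theorem test {n d : ℕ} {f : SimpleGraph (Fin n) → Prop} (hf : Setup n d f)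
    (hΦ : Fam fun _ G => InG f G) [Finite L] {l : Equiv.Perm L} (l1 : l ^ 2 = 1) (l2 : ∀ x, l x ≠ x)
    {o : ℕ} (ho : (o = 1 ∧ IsEmpty L) ∨ o = 17)
    {Z : Finset (Sym2 (Fin n))} {c : ℕ} (hA : Ac f Z c)
    (hZ : ∀ (Y : Type) [Finite Y], Nat.card (L ⊕ Y) = n → ∃ e : L ⊕ Y ≃ Fin n,
      (∀ x y, x ≠ y → (s(e x, e y) ∈ Z ↔ (ds ⊤ ⊥).Adj x y)) ∧
        c < Nat.card {v : Sym2 (L ⊕ Y) // ¬ v.IsDiag ∧ v ∉ (ds ⊤ ⊥).edgeSet}) :
    Test o (rest (fun _ G => InG f G) (⊤ : SimpleGraph L)) := by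
  intro X T _ _ a ha
  classical
  by_cases hn : ¬ Nat.card (L ⊕ X) = n
  · have h0 : {E : SimpleGraph T | rest (fun _ G => InG f G) (⊤ : SimpleGraph L) X (E.comap a)} = ∅ :=
      Set.eq_empty_of_forall_notMem fun E hE => hE.elim fun e _ =>
        hn ((Nat.card_congr e).trans (Nat.card_fin n))
    rw [h0, Set.ncard_empty, Nat.cast_zero]
  rw [not_not] at hn
  choose B _ w u fin b1 b2 b3 b4 using fun t => blk (sz a t) (by have := ha.1 t; omega)
  have := Fintype.ofFinite T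
  have hB : ∀ t, Fintype (B t) := fun t => Fintype.ofFinite _
  obtain ⟨η, hη⟩ : ∃ η : (Σ t, B t) ≃ X, ∀ v, a (η v) = v.1 := by
    have ε : ∀ t, B t ≃ {x // a x = t} := fun t => (Finite.card_eq.1
      ((b1 t).trans (Nat.card_coe_set_eq (a ⁻¹' {t})).symm)).some
    exact ⟨(Equiv.sigmaCongrRight ε).trans (Equiv.sigmaFiberEquiv a), fun v => (ε v.1 v.2).2⟩
  obtain ⟨e, e1, e2⟩ := hZ (Σ t, B t)
    ((Nat.card_congr (Equiv.sumCongr (Equiv.refl L) η)).trans hn)
  obtain ⟨α, a1, a2, a3, a4⟩ : ∃ α : (Option (Σ t, B t) → ZMod 2) → ∀ t, B t, α 0 = 0 ∧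
      (∀ c c', α (c + c') = α c + α c') ∧ (∀ c t, Odd (sz a t) → α c t = 0) ∧
      ∀ (z : ZMod 2) (b : ∀ t, B t), (∀ t, Odd (sz a t) → b t = 0) → ∃ c, c none = z ∧ α c = b := by
    refine ⟨fun c t => if Odd (sz a t) then 0 else ∑ y, ((c (some ⟨t, y⟩)).val : B t) * y, ?_,
      fun c c' => ?_, fun c t ht => if_pos ht, fun z b hb =>
        ⟨fun o => o.elim z fun v => if v.2 = b v.1 then 1 else 0, rfl, ?_⟩⟩
    · funext t
      simp
    · funext t
      rw [Pi.add_apply]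
      beta_reduce
      split_ifs with ht
      · rw [add_zero]
      · rw [← sum_add_distrib]
        exact sum_congr rfl fun y _ => by rw [Pi.add_apply, val_add (b3 t ht).1, add_mul]
    · funext t
      beta_reduce
      by_cases ht : Odd (sz a t)
      · rw [if_pos ht, hb t ht]
      · rw [if_neg ht, sum_eq_single (b t) (fun y _ hy => by simp [hy])
          fun h => absurd (mem_univ _) h]
        simp [ZMod.val_one]
  obtain ⟨γ, g1, g2⟩ : ∃ γ : ∀ t, Equiv.Perm (B t), (∀ t, ¬ Odd (sz a t) → ∀ x, γ t x = w t * x) ∧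
      ∀ t, Odd (sz a t) → ∀ x, γ t x = x + 1 :=
    ⟨fun t => if Odd (sz a t) then Equiv.addRight 1 else (w t).mulLeft,
      fun t ht x => by simp only [if_neg ht]; rfl, fun t ht x => by simp only [if_pos ht]; rfl⟩
  have g3 : ∀ t, ¬ Odd (sz a t) → ∀ (j : ℕ) x, (γ t ^ j) x = (w t ^ j : (B t)ˣ) * x :=
    fun t ht j x => by
      induction j with
      | zero => simp
      | succ j ih =>
        rw [pow_succ', Equiv.Perm.mul_apply, ih, g1 t ht, pow_succ', Units.val_mul, mul_assoc]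
  have g4 : ∀ t, Odd (sz a t) → ∀ (j : ℕ) x, (γ t ^ j) x = x + j := fun t ht j x => by
    induction j with
    | zero => simp
    | succ j ih => rw [pow_succ', Equiv.Perm.mul_apply, ih, g2 t ht, Nat.cast_succ, add_assoc]
  have g5 : ∀ t (j : ℕ) x, ((u t).mulLeft ^ j) x = (u t ^ j : (B t)ˣ) * x := fun t j x => by
    induction j with
    | zero => simp
    | succ j ih =>
      rw [pow_succ', Equiv.Perm.mul_apply, ih, pow_succ', Units.val_mul, mul_assoc]
      rfl
  obtain ⟨U, hU⟩ : ∃ U : ℕ, U = 547 := ⟨_, rfl⟩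
  have h1 := evenZ hf e (ds ⊤ ⊥) hA e1 e2
    (φ := fun c => pm (l ^ (c none).val) fun t => Equiv.addRight (α c t))
    (g := pm 1 γ) (τ := pm 1 fun t => (u t).mulLeft) (U := U) (b := 4)
    (by
      rw [← pm_one]
      refine congrArg₂ pm (by simp) (funext fun t => Equiv.ext fun x => by simp [a1]))
    (fun c c' => by
      rw [pm_mul]
      refine congrArg₂ pm ?_ (funext fun t => Equiv.ext fun x => ?_)
      · rw [Pi.add_apply, ZMod.val_add, ← pow_eq_pow_mod _ l1, pow_add]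
      · change x + α (c + c') t = x + α c' t + α c t
        rw [a2, Pi.add_apply]
        ring)
    (fun c => by
      obtain ⟨c', h, h'⟩ := a4 (c none) (fun t => w t * α c t) fun t ht => by rw [a3 c t ht, mul_zero]
      refine ⟨c', ?_⟩
      rw [pm_mul, pm_mul, h, one_mul, mul_one]
      refine congrArg (pm _) (funext fun t => Equiv.ext fun x => ?_)
      change γ t (x + α c t) = γ t x + α c' t
      by_cases ht : Odd (sz a t)
      · rw [a3 c t ht, a3 c' t ht, add_zero, add_zero]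
      · rw [g1 t ht, g1 t ht, h', mul_add])
    (fun c => by
      rw [pm_mul, pm_mul, one_mul, mul_one]
      refine congrArg (pm _) (funext fun t => Equiv.ext fun x => ?_)
      change u t * (x + α c t) = u t * x + α c t
      by_cases ht : Odd (sz a t)
      · rw [a3 c t ht, add_zero, add_zero]
      · rw [(b3 t ht).2.1, Units.val_one, one_mul, one_mul])
    (by
      rw [pm_pow, pm_mul, pm_mul, one_pow]
      refine congrArg (pm _) (funext fun t => Equiv.ext fun x => ?_)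
      change u t * γ t x = (γ t ^ U) (u t * x)
      by_cases ht : Odd (sz a t)
      · rw [g2 t ht, g4 t ht, hU, (b4 t ht).2.1, mul_add, mul_one]
      · rw [g1 t ht, g3 t ht, (b3 t ht).2.1, hU, show 547 = 21 * 26 + 1 from rfl, pow_succ, pow_mul,
          (b3 t ht).2.2.1, one_pow, Units.val_one, one_mul, one_mul, one_mul])
    (by
      rw [pm_pow, one_pow, ← pm_one]
      refine congrArg (pm _) (funext fun t => Equiv.ext fun x => ?_)
      rw [g5, b2, Units.val_one, one_mul]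
      rfl)
    (fun _ => pm_aut _ _ ⊥) (pm_aut _ _ ⊥) (pm_aut _ _ ⊥)
  rw [← h1]
  refine congrArg _ (Set.ncard_congr
    (fun E _ => ds (⊤ : SimpleGraph L) (E.comap (Sigma.fst : (Σ t, B t) → T))) (fun E hE =>
      ⟨⟨fun _ => pm_aut _ _ E, pm_aut _ _ E, pm_aut _ _ E⟩, ?_, (hΦ.rest ⊤).le η (fun x y h => ?_) hE⟩)
    (fun E E' _ _ h => ?_) fun G hG => ?_)
  · rintro (x | x) (y | y) h
    · exact h
    · exact h
    · exact h
    · exact h.elim
  · rwa [comap_adj, hη, hη]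
  · ext t t'
    exact iff_of_eq (congrArg
      (fun G : SimpleGraph (L ⊕ Σ t, B t) => G.Adj (.inr ⟨t, 0⟩) (.inr ⟨t', 0⟩)) h)
  · obtain ⟨⟨i1, i2, i3⟩, i4, i5⟩ := hG
    have gp : ∀ (j : ℕ) t t' x y, G.Adj (.inr ⟨t, x⟩) (.inr ⟨t', y⟩) →
        G.Adj (.inr ⟨t, (γ t ^ j) x⟩) (.inr ⟨t', (γ t' ^ j) y⟩) := fun j t t' x y h => by
      have := pow_mem i2 j _ _ h
      rw [pm_pow] at this
      exact this
    have tr : ∀ t, ¬ Odd (sz a t) → ∀ (c : B t) t₁ t₂ x y, G.Adj (.inr ⟨t₁, x⟩) (.inr ⟨t₂, y⟩) →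
        G.Adj (.inr ⟨t₁, x + (Pi.single t c : ∀ t, B t) t₁⟩)
          (.inr ⟨t₂, y + (Pi.single t c : ∀ t, B t) t₂⟩) := fun t ht c t₁ t₂ x y h => by
      obtain ⟨c', _, hc'⟩ := a4 0 (Pi.single t c) fun t' ht' =>
        Pi.single_eq_of_ne (fun e : t' = t => ht (e ▸ ht')) _
      rw [← hc']
      exact i1 c' _ _ h
    have k1 : ∀ t t' x x' y, ¬ Odd (sz a t) → t ≠ t' → G.Adj (.inr ⟨t, x⟩) (.inr ⟨t', y⟩) →
        G.Adj (.inr ⟨t, x'⟩) (.inr ⟨t', y⟩) := fun t t' x x' y ht h hxy => by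
      have := tr t ht (x' - x) _ _ _ _ hxy
      rwa [Pi.single_eq_same, Pi.single_eq_of_ne h.symm, add_zero, add_sub_cancel] at this
    have k2 : ∀ t t' x x' y, t ≠ t' → G.Adj (.inr ⟨t, x⟩) (.inr ⟨t', y⟩) →
        G.Adj (.inr ⟨t, x'⟩) (.inr ⟨t', y⟩) := fun t t' x x' y h hxy => by
      by_cases ht : Odd (sz a t)
      · obtain ⟨k, hk⟩ := (b4 t ht).1 (x' - x)
        have := gp k _ _ _ _ hxy
        rw [g4 t ht, hk, add_sub_cancel] at this
        exact (k1 t' t _ y x' (fun ht' => h (ha.2 t t' ht ht')) h.symm this.symm).symm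
      · exact k1 t t' x x' y ht h hxy
    have ti : ∀ t (x y x' y' : B t), G.Adj (.inr ⟨t, x⟩) (.inr ⟨t, y⟩) → y' - x' = y - x →
        G.Adj (.inr ⟨t, x'⟩) (.inr ⟨t, y'⟩) := fun t x y x' y' h hd => by
      have e3 : y' = y + (x' - x) := by linear_combination hd
      by_cases ht : Odd (sz a t)
      · obtain ⟨k, hk⟩ := (b4 t ht).1 (x' - x)
        have := gp k _ _ _ _ h
        rwa [g4 t ht, g4 t ht, hk, add_sub_cancel, ← e3] at this
      · have := tr t ht (x' - x) _ _ _ _ h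
        rwa [Pi.single_eq_same, add_sub_cancel, ← e3] at this
    have four : ∀ t, sz a t ≠ 1 → ∃ j : Fin 4 → B t, Function.Injective j := fun t ht => by
      obtain ⟨j⟩ := Function.Embedding.nonempty_of_card_le (α := Fin 4) (β := B t) (by
        have := ha.1 t
        rw [Fintype.card_fin, ← Nat.card_eq_fintype_card, b1]
        omega)
      exact ⟨j, j.injective⟩
    have k3 : ∀ t (x y : B t), ¬ G.Adj (.inr ⟨t, x⟩) (.inr ⟨t, y⟩) := fun t x y h => by
      have h0 : y - x ≠ 0 := sub_ne_zero.2 fun e => h.ne (by rw [e])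
      have all : ∀ x' y' : B t, y' - x' ≠ 0 → G.Adj (.inr ⟨t, x'⟩) (.inr ⟨t, y'⟩) := fun x' y' h' => by
        by_cases ht : Odd (sz a t)
        · obtain ⟨j, hj⟩ := (b4 t ht).2.2 _ _ h0 h'
          have h2 := pow_mem i3 j.1 _ _ h
          rw [pm_pow] at h2
          have h3 : G.Adj (.inr ⟨t, ((u t).mulLeft ^ j.1) x⟩) (.inr ⟨t, ((u t).mulLeft ^ j.1) y⟩) := h2
          rw [g5, g5, Units.val_pow_eq_pow_val] at h3
          exact ti t _ _ _ _ h3 (by rw [← hj, mul_sub])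
        · obtain ⟨j, hj⟩ := (b3 t ht).2.2.2 _ _ h0 h'
          have := gp j _ _ _ _ h
          rw [g3 t ht, g3 t ht] at this
          exact ti t _ _ _ _ this (by rw [← hj, mul_sub])
      obtain ⟨j, hj⟩ := four t fun e =>
        h0 ((Finite.card_le_one_iff_subsingleton.1 ((b1 t).trans e).le).elim _ _)
      exact hΦ.clq (fun i => .inr ⟨t, j i⟩) i5 fun i i' hi => all _ _ (sub_ne_zero.2 (hj.ne hi.symm))
    have k4 : ∀ x v, ¬ G.Adj (.inl x) (.inr v) := fun x ⟨t, y⟩ h => by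
      have h1 : ∀ y : B t, G.Adj (.inl x) (.inr ⟨t, y⟩) → G.Adj (.inl (l x)) (.inr ⟨t, y⟩) :=
        fun y h => by
          obtain ⟨c', h2, h3⟩ := a4 1 0 fun _ _ => rfl
          have h4 : G.Adj (.inl ((l ^ (c' none).val) x)) (.inr ⟨t, y + α c' t⟩) := i1 c' _ _ h
          rwa [h2, h3, ZMod.val_one, pow_one, Pi.zero_apply, add_zero] at h4
      have h2 : ∀ y' : B t, G.Adj (.inl x) (.inr ⟨t, y'⟩) := fun y' => by
        by_cases ht : Odd (sz a t)
        · obtain ⟨k, hk⟩ := (b4 t ht).1 (y' - y)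
          have h3 := pow_mem i2 k _ _ h
          rw [pm_pow, one_pow] at h3
          have h4 : G.Adj (.inl x) (.inr ⟨t, (γ t ^ k) y⟩) := h3
          rwa [g4 t ht, hk, add_sub_cancel] at h4
        · obtain ⟨c', h2, h3⟩ := a4 0 (Pi.single t (y' - y)) fun t' ht' =>
            Pi.single_eq_of_ne (fun e : t' = t => ht (e ▸ ht')) _
          have h4 : G.Adj (.inl ((l ^ (c' none).val) x)) (.inr ⟨t, y + α c' t⟩) := i1 c' _ _ h
          rwa [h2, h3, ZMod.val_zero, pow_zero, Pi.single_eq_same, add_sub_cancel] at h4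
      obtain ⟨j, hj⟩ := four t fun e => by
        have h6 := ha.1 t
        rcases ho with ho | ho
        · exact ho.2.false x
        · omega
      exact hΦ.book (fun i => .inr ⟨t, j i⟩) i5 (i4 (v := .inl x) (w := .inl (l x)) (l2 x).symm)
        (fun i i' e => hj (sigma_mk_injective (Sum.inr_injective e))) fun i => ⟨h2 _, h1 _ (h2 _)⟩
    let E : SimpleGraph T := G.comap fun t => .inr ⟨t, 0⟩
    have e3 : ds (⊤ : SimpleGraph L) (E.comap (Sigma.fst : (Σ t, B t) → T)) = G := by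
      ext (x | ⟨t, x⟩) (y | ⟨t', y⟩)
      · exact ⟨fun h => i4 h, fun h e => h.ne (congrArg _ e)⟩
      · exact iff_of_false (fun h => h) (k4 _ _)
      · exact iff_of_false (fun h => h) fun h => k4 _ _ h.symm
      · by_cases h : t = t'
        · subst h
          exact iff_of_false (k3 t 0 0) (k3 t x y)
        · exact ⟨fun h' => (k2 t' t 0 y x (Ne.symm h) (k2 t t' 0 x 0 h h').symm).symm,
            fun h' => (k2 t' t y 0 0 (Ne.symm h) (k2 t t' x 0 y h h').symm).symm⟩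
    refine ⟨E, (hΦ.rest ⊤).le η.symm (H := E.comap Sigma.fst) (fun x y h => ?_) ?_, e3⟩
    · rwa [comap_adj, ← hη, ← hη, η.apply_symm_apply, η.apply_symm_apply]
    · change InG f _
      rw [e3]
      exact i5

end Pool.Agent.MP_257582_lc.H52K
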