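import Pool.Agent.MP_257582_lc.H52K.C

/-! The link of the first query and the main theorem. -/

set_option autoImplicit false

namespace Pool.Agent.MP_257582_lc.H52K

open Finset SimpleGraph

theorem link {n : ℕ} (hn : 3 ≤ n) (P : SimpleGraph (Fin n) → Prop)
    (hmono : ∀ G H : SimpleGraph (Fin n), G ≤ H → P G → P H)
    (s : Finset (Sym2 (Fin n)) → SimpleGraph (Fin n) → Sym2 (Fin n))
    (hs : ∀ (Q : Finset (Sym2 (Fin n))) (G H : SimpleGraph (Fin n)),
      (∀ e ∈ Q, (e ∈ G.edgeSet ↔ e ∈ H.edgeSet)) → s Q G = s Q H)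
    (h : ¬ ∃ G H : SimpleGraph (Fin n),
      (∀ e ∈ (fun Q : Finset (Sym2 (Fin n)) => insert (s Q G) Q)^[n.choose 2 - 1]
        (∅ : Finset (Sym2 (Fin n))), (e ∈ G.edgeSet ↔ e ∈ H.edgeSet)) ∧ P G ∧ ¬ P H) :
    ∃ a b : Fin n, a ≠ b ∧ Ac (fun G => ¬ P G) {s(a, b)} (n.choose 2 - 2) := by
  obtain ⟨a, b, hab, h0⟩ : ∃ a b : Fin n, a ≠ b ∧ ((s ∅ ⊥).IsDiag ∨ s ∅ ⊥ = s(a, b)) := by
    induction s ∅ ⊥ using Sym2.ind with
    | h x y =>
      by_cases e : x = y
      · exact ⟨⟨0, by omega⟩, ⟨1, by omega⟩, by simp, Or.inl (Sym2.mk_isDiag_iff.2 e)⟩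
      · exact ⟨x, y, e, Or.inr rfl⟩
  refine ⟨a, b, hab, fun V _ _ j r hr hc => ?_⟩
  obtain ⟨gr, hg⟩ : ∃ gr : Finset (Sym2 (Fin n)) → SimpleGraph (Fin n), ∀ X, gr X =
      fromEdgeSet (({s(a, b)} ∪ X : Finset (Sym2 (Fin n))) : Set (Sym2 (Fin n))) := ⟨_, fun _ => rfl⟩
  have agree : ∀ (Q X Y : Finset (Sym2 (Fin n))), (∀ e ∈ Q, (e ∈ X ↔ e ∈ Y)) →
      ∀ e ∈ insert (s ∅ ⊥) Q, (e ∈ (gr X).edgeSet ↔ e ∈ (gr Y).edgeSet) := fun Q X Y hXY e he => by
    rw [hg, hg, edgeSet_fromEdgeSet, edgeSet_fromEdgeSet]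
    rcases mem_insert.1 he with rfl | he
    · rcases h0 with h0 | h0 <;> simp [h0]
    · simp [hXY e he]
  have it : ∀ (G : SimpleGraph (Fin n)) (k : ℕ),
      (fun Q : Finset (Sym2 (Fin n)) => insert (s Q G) Q)^[k + 1] ∅ = insert (s ∅ ⊥)
        ((fun Q : Finset (Sym2 (Fin n)) => insert (s (insert (s ∅ ⊥) Q) G) Q)^[k] ∅) := fun G k => by
    induction k with
    | zero => exact congrArg (insert · ∅) (hs ∅ G ⊥ fun _ h => absurd h (notMem_empty _))
    | succ k ih => rw [Function.iterate_succ_apply', ih, Function.iterate_succ_apply', insert_comm]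
  have h3 : 3 ≤ n.choose 2 := Nat.choose_le_choose 2 hn
  have h4 := acyc_of_strategy (F := ZMod 2) (fun X => ¬ P (gr X))
    (fun X Y hXY hY hX => hY (hmono _ _ (by
      rw [hg, hg]
      exact fromEdgeSet_mono (coe_subset.2 (union_subset_union_right hXY))) hX))
    (fun Q X => s (insert (s ∅ ⊥) Q) (gr X)) (fun Q X Y hXY => hs _ _ _ (agree Q X Y hXY))
    (n.choose 2 - 2) (fun X Y hXY hY hX => h ⟨gr X, gr Y, by
      rw [show n.choose 2 - 1 = n.choose 2 - 2 + 1 by omega, it]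
      exact agree _ X Y hXY, hX, hY⟩) j hc ∅ hr
  simpa only [hg, empty_union] using h4

lemma card_free {Y : Type} [Finite Y] (Z : SimpleGraph Y) (S : Finset (Sym2 Y))
    (h : ∀ x y, Z.Adj x y → s(x, y) ∈ S) :
    (Nat.card Y).choose 2 ≤ Nat.card {v : Sym2 Y // ¬ v.IsDiag ∧ v ∉ Z.edgeSet} + #S := by
  classical
  have := Fintype.ofFinite Y
  rw [Nat.card_eq_fintype_card, ← Sym2.card_subtype_not_diag, Nat.card_eq_fintype_card,
    Fintype.card_subtype, Fintype.card_subtype]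
  refine (card_le_card fun v hv => ?_).trans (card_union_le _ _)
  induction v using Sym2.ind with
  | h x y =>
    by_cases e : Z.Adj x y
    · exact mem_union_right _ (h x y e)
    · exact mem_union_left _ (mem_filter.2 ⟨mem_univ _, (mem_filter.1 hv).2, e⟩)

lemma pair_equiv {n : ℕ} {Y : Type} [Finite Y] (hY : Nat.card (Bool ⊕ Y) = n) {a b : Fin n}
    (hab : a ≠ b) : ∃ e : Bool ⊕ Y ≃ Fin n, e (.inl true) = a ∧ e (.inl false) = b := by
  obtain ⟨e⟩ : Nonempty (Bool ⊕ Y ≃ Fin n) := Finite.card_eq.1 (hY.trans (Nat.card_fin n).symm)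
  obtain ⟨ρ, hρ⟩ := Equiv.Perm.exists_extending_pair _ (fun x : Bool => cond x a b)
    (e.injective.comp Sum.inl_injective) (by
      rintro (_ | _) (_ | _) h
      · rfl
      · exact absurd h.symm hab
      · exact absurd h hab
      · rfl)
  exact ⟨e.trans ρ, hρ true, hρ false⟩

lemma edge_adj' {Y : Type} {x y : Bool ⊕ Y} (h : (ds (⊤ : SimpleGraph Bool) ⊥).Adj x y) :
    (x = .inl true ∧ y = .inl false) ∨ (x = .inl false ∧ y = .inl true) := by
  rcases x with (_ | _) | x <;> rcases y with (_ | _) | y <;>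
    first | exact Or.inl ⟨rfl, rfl⟩ | exact Or.inr ⟨rfl, rfl⟩ | exact absurd rfl h | exact h.elim

lemma prime_case {n d : ℕ} {f : SimpleGraph (Fin n) → Prop} (hf : Setup n d f)
    (hd : d < n.choose 2) (hp : n.Prime) : False := by
  have := Fact.mk hp
  obtain ⟨w, hw⟩ := IsCyclic.exists_monoid_generator (α := (ZMod n)ˣ)
  obtain ⟨e⟩ : Nonempty (ZMod n ≃ Fin n) :=
    Finite.card_eq.1 ((Nat.card_zmod n).trans (Nat.card_fin n).symm)
  have h6 := E99.graph_even hf hd (Nat.card_zmod n) (κ := Unit) (p := n)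
    (φ := fun c => Equiv.addRight (c ())) (Equiv.ext fun x => add_zero x)
    (fun a b => Equiv.ext fun x => by
      change x + (a () + b ()) = x + b () + a ()
      ring) (g := w.mulLeft) fun a => ⟨fun _ => w * a (), Equiv.ext fun x => mul_add _ _ _⟩
  refine one_ne_zero (Eq.trans ?_ h6)
  rw [← Nat.cast_one, ← Set.ncard_singleton (⊥ : SimpleGraph (ZMod n))]
  refine congrArg _ (congrArg _ (Eq.symm ?_))
  rw [Set.eq_singleton_iff_unique_mem]
  refine ⟨And.intro ⟨fun _ _ _ h => h, fun _ _ h => h⟩ ⟨e, hf.anti _ _ (fun _ _ h => by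
    obtain ⟨_, _, h, _⟩ := (map_adj _ _ _ _).1 h
    exact h.elim) hf.bot⟩, fun G hG => by_contra fun h0 => ?_⟩
  obtain ⟨x, y, hxy⟩ := ne_bot_iff_exists_adj.1 h0
  have h1 : y - x ≠ 0 := sub_ne_zero.2 hxy.ne'
  have h2 : ∀ j : ℕ, G.Adj ((w ^ j : (ZMod n)ˣ) * x) ((w ^ j : (ZMod n)ˣ) * y) := fun j => by
    induction j with
    | zero => simpa using hxy
    | succ j ih =>
      rw [pow_succ', Units.val_mul, mul_assoc, mul_assoc]
      exact hG.1.2 _ _ ih
  refine hf.top (hf.anti _ _ (fun u v huv => ?_) ((inG_iff hf G e).1 hG.2))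
  obtain ⟨a, rfl⟩ := e.surjective u
  obtain ⟨b, rfl⟩ := e.surjective v
  refine (map_adj_apply (f := e.toEmbedding)).2 ?_
  obtain ⟨j, hj⟩ := hw (Units.mk0 _
    (div_ne_zero (sub_ne_zero.2 fun h : b = a => huv (by rw [h])) h1))
  have h3 := h2 j
  rw [show w ^ j = _ from hj, Units.val_mk0] at h3
  have h4 : G.Adj ((b - a) / (y - x) * x + (a - (b - a) / (y - x) * x))
      ((b - a) / (y - x) * y + (a - (b - a) / (y - x) * x)) := hG.1.1 (fun _ => _) _ _ h3
  rwa [add_sub_cancel, show (b - a) / (y - x) * y + (a - (b - a) / (y - x) * x) =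
    a + (b - a) / (y - x) * (y - x) by ring, div_mul_cancel₀ _ h1, add_sub_cancel] at h4

theorem main {n : ℕ} (hn : 3 ≤ n) (P : SimpleGraph (Fin n) → Prop)
    (hmono : ∀ G H : SimpleGraph (Fin n), G ≤ H → P G → P H)
    (hinv : ∀ (σ : Fin n ≃ Fin n) (G : SimpleGraph (Fin n)), P G → P (G.map σ.toEmbedding))
    (h1 : ∃ G : SimpleGraph (Fin n), P G) (h2 : ∃ G : SimpleGraph (Fin n), ¬ P G)
    (htri : ∀ G : SimpleGraph (Fin n), ¬ P G → G.CliqueFree 4 ∧
      ∀ a b : Fin n, G.Adj a b → (G.commonNeighbors a b).ncard ≤ 3)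
    (s : Finset (Sym2 (Fin n)) → SimpleGraph (Fin n) → Sym2 (Fin n))
    (hs : ∀ (Q : Finset (Sym2 (Fin n))) (G H : SimpleGraph (Fin n)),
      (∀ e ∈ Q, (e ∈ G.edgeSet ↔ e ∈ H.edgeSet)) → s Q G = s Q H)
    (h : ¬ ∃ G H : SimpleGraph (Fin n),
      (∀ e ∈ (fun Q : Finset (Sym2 (Fin n)) => insert (s Q G) Q)^[n.choose 2 - 1]
        (∅ : Finset (Sym2 (Fin n))), (e ∈ G.edgeSet ↔ e ∈ H.edgeSet)) ∧ P G ∧ ¬ P H) : False := by
  classical
  have : Fact (Nat.Prime 2) := ⟨Nat.prime_two⟩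
  have hf := setup_of_strategy P hmono hinv h1 h2 s hs h
  have h3 : 3 ≤ n.choose 2 := Nat.choose_le_choose 2 hn
  have hΦ : Fam fun _ G => InG (fun G => ¬ P G) G := by
    refine ⟨inG_of_le hf, fun {_ G} c ⟨e, he⟩ k => ?_, fun {_ G a b} c ⟨e, he⟩ k1 k2 k3 => ?_⟩
    · refine (htri _ he).1 (univ.image fun i => e (c i)) ⟨fun x hx y hy hxy => ?_, ?_⟩
      · obtain ⟨i, _, rfl⟩ := mem_image.1 hx
        obtain ⟨j, _, rfl⟩ := mem_image.1 hy
        exact (map_adj_apply (f := e.toEmbedding)).2 (k i j fun h => hxy (by rw [h]))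
      · rw [card_image_of_injective _ fun i j h => by_contra fun h' => (k i j h').ne (e.injective h),
          card_univ, Fintype.card_fin]
    · have k4 := (htri _ he).2 _ _ ((map_adj_apply (f := e.toEmbedding)).2 k1)
      have k5 := Set.ncard_le_ncard_of_injOn (s := Set.univ) (fun i => e (c i))
        (t := (G.map e.toEmbedding).commonNeighbors (e a) (e b))
        (fun i _ => ⟨(map_adj_apply (f := e.toEmbedding)).2 (k3 i).1,
          (map_adj_apply (f := e.toEmbedding)).2 (k3 i).2⟩) (e.injective.comp k2).injOn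
      rw [Set.ncard_univ, Nat.card_fin] at k5
      exact absurd (k5.trans k4) (by decide)
  have hb : InG (fun G => ¬ P G) (⊥ : SimpleGraph (Fin n)) :=
    ⟨Equiv.refl _, hf.anti _ _ (fun _ _ h => by simp at h) hf.bot⟩
  have hE : ∀ {Y : Type} (x y : Empty ⊕ Y), ¬ (ds (⊤ : SimpleGraph Empty) ⊥).Adj x y := by
    rintro Y (x | x) (y | y) h <;> first | exact x.elim | exact h
  by_cases hp : n.Prime
  · exact prime_case hf (by omega) hp
  have h7 : n ≠ 3 := fun e => hp (e ▸ Nat.prime_three)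
  have h8 : n ≠ 11 := fun e => hp (e ▸ Nat.prime_eleven)
  by_cases h4 : n % 4 ≤ 1
  · refine descent (o := 1) rfl n h4 (fun _ => by omega) _ (hΦ.rest ⊤)
      (test hf hΦ (L := Empty) (l := 1) (one_pow _) (fun x => x.elim)
      (Or.inl ⟨rfl, inferInstance⟩) (Z := ∅) (fun V _ _ j r hr hc => hf.acyc _ V j ∅ r hr hc) fun Y _ hY => ?_)
      (hΦ.le (Equiv.emptySum _ _) (fun x y h => absurd h (hE x y)) hb)
    obtain ⟨e⟩ : Nonempty (Empty ⊕ Y ≃ Fin n) := Finite.card_eq.1 (hY.trans (Nat.card_fin n).symm)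
    have := card_free (ds (⊤ : SimpleGraph Empty) (⊥ : SimpleGraph Y)) ∅ fun x y h => absurd h (hE x y)
    rw [hY, card_empty] at this
    exact ⟨e, fun x y _ => iff_of_false (notMem_empty _) (hE x y), by omega⟩
  · obtain ⟨a, b, hab, hA⟩ := link hn P hmono s hs h
    have h5 := descent (o := 17) rfl (n - 2) (by omega) (by omega) _ (hΦ.rest ⊤) (test hf hΦ (L := Bool)
      (l := ⟨not, not, Bool.not_not, Bool.not_not⟩) (Equiv.ext Bool.not_not)
      (fun x => Bool.not_ne_self x) (Or.inr rfl) hA fun Y _ hY => by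
        obtain ⟨e, e1, e2⟩ := pair_equiv hY hab
        have := card_free (ds (⊤ : SimpleGraph Bool) (⊥ : SimpleGraph Y)) {s(.inl true, .inl false)}
          fun x y h => by rcases edge_adj' h with ⟨rfl, rfl⟩ | ⟨rfl, rfl⟩ <;> simp
        rw [hY, card_singleton] at this
        refine ⟨e, fun x y _ => ?_, by omega⟩
        rw [mem_singleton, ← e1, ← e2, Sym2.eq_iff]
        simp only [e.injective.eq_iff]
        refine ⟨?_, edge_adj'⟩
        rintro (⟨rfl, rfl⟩ | ⟨rfl, rfl⟩)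
        · exact (by decide : true ≠ false)
        · exact (by decide : false ≠ true))
    have h6 := E99.graph_even hf (by omega) (Nat.card_fin n) (κ := Empty) (p := 2) (φ := fun _ => 1)
      rfl (fun _ _ => (one_mul _).symm) (g := 1) fun a => ⟨a, rfl⟩
    refine one_ne_zero (Eq.trans ?_ h6)
    rw [← Nat.cast_one, ← Set.ncard_singleton (⊥ : SimpleGraph (Fin n))]
    refine congrArg _ (congrArg _ (Eq.symm ?_))
    rw [Set.eq_singleton_iff_unique_mem]
    refine ⟨And.intro ⟨fun _ => one_mem _, one_mem _⟩ hb, fun G hG => by_contra fun h0 => ?_⟩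
    obtain ⟨x, y, hxy⟩ := ne_bot_iff_exists_adj.1 h0
    obtain ⟨e, e1, e2⟩ := pair_equiv (Y := Fin (n - 2)) (by simp; omega) hxy.ne
    refine h5 (hΦ.le e (fun u v huv => ?_) hG.2)
    rcases edge_adj' huv with ⟨rfl, rfl⟩ | ⟨rfl, rfl⟩ <;> rw [e1, e2]
    · exact hxy
    · exact hxy.symm

end Pool.Agent.MP_257582_lc.H52K
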